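import Mathlib

open Set Filter Topology
open scoped ContDiff

namespace Pool.Agent.MP_65e1c6_gt

/-- Unimodular corrugation profile with mean `1 - b^2`. -/
noncomputable def zf (b t : ℝ) : ℂ :=
  (1 + b * Complex.exp (t * Complex.I)) / (1 + b * Complex.exp (-(t * Complex.I)))

/-- Periodic primitive of `zf b - (1 - b^2)`. -/
noncomputable def prof (b t : ℝ) : ℂ :=
  -(Complex.I * b * Complex.exp (t * Complex.I))
    - Complex.I * (1 - b ^ 2) * Complex.log (1 + b * Complex.exp (-(t * Complex.I)))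

lemma norm_exp_aux (t : ℝ) : ‖Complex.exp (-(t * Complex.I))‖ = 1 := by
  have : -((t : ℂ) * Complex.I) = ((-t : ℝ) : ℂ) * Complex.I := by push_cast; ring
  rw [this, Complex.norm_exp_ofReal_mul_I]

lemma slit_aux {b : ℝ} (hb : |b| < 1) (t : ℝ) :
    1 + (b : ℂ) * Complex.exp (-(t * Complex.I)) ∈ Complex.slitPlane := by
  left
  have h1 : |((b : ℂ) * Complex.exp (-(t * Complex.I))).re| ≤
      ‖(b : ℂ) * Complex.exp (-(t * Complex.I))‖ := Complex.abs_re_le_norm _
  rw [norm_mul, norm_exp_aux, mul_one, Complex.norm_real, Real.norm_eq_abs] at h1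
  have h2 := (abs_le.mp (h1.trans hb.le)).1
  have h3 : |((b : ℂ) * Complex.exp (-(t * Complex.I))).re| < 1 := lt_of_le_of_lt h1 hb
  have h4 := (abs_lt.mp h3).1
  simp only [Complex.add_re, Complex.one_re]
  linarith

lemma den_ne {b : ℝ} (hb : |b| < 1) (t : ℝ) :
    1 + (b : ℂ) * Complex.exp (-(t * Complex.I)) ≠ 0 :=
  Complex.slitPlane_ne_zero (slit_aux hb t)

lemma prof_periodic (b t : ℝ) : prof b (t + 2 * Real.pi) = prof b t := by
  unfold prof
  have h1 : Complex.exp (((t + 2 * Real.pi : ℝ) : ℂ) * Complex.I) = Complex.exp (t * Complex.I) := by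
    push_cast
    rw [add_mul, Complex.exp_add, Complex.exp_two_pi_mul_I, mul_one]
  have h2 : Complex.exp (-(((t + 2 * Real.pi : ℝ) : ℂ) * Complex.I)) =
      Complex.exp (-(t * Complex.I)) := by
    rw [Complex.exp_neg, h1, Complex.exp_neg]
  rw [h1, h2]

lemma hasDerivAt_exp_pos (t : ℝ) :
    HasDerivAt (fun s : ℝ => Complex.exp (s * Complex.I))
      (Complex.exp (t * Complex.I) * Complex.I) t := by
  have h : HasDerivAt (fun s : ℝ => (s : ℂ) * Complex.I) (1 * Complex.I) t :=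
    (Complex.ofRealCLM.hasDerivAt (x := t)).mul_const Complex.I
  rw [one_mul] at h
  exact h.cexp

lemma hasDerivAt_exp_neg (t : ℝ) :
    HasDerivAt (fun s : ℝ => Complex.exp (-(s * Complex.I)))
      (Complex.exp (-(t * Complex.I)) * (-Complex.I)) t := by
  have h : HasDerivAt (fun s : ℝ => (s : ℂ) * Complex.I) (1 * Complex.I) t :=
    (Complex.ofRealCLM.hasDerivAt (x := t)).mul_const Complex.I
  rw [one_mul] at h
  exact h.neg.cexp

lemma hasDerivAt_prof {b : ℝ} (hb : |b| < 1) (t : ℝ) :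
    HasDerivAt (prof b) (zf b t - (1 - b ^ 2)) t := by
  have h1 := (hasDerivAt_exp_pos t).const_mul (Complex.I * b)
  have h2 : HasDerivAt (fun s : ℝ => 1 + (b : ℂ) * Complex.exp (-(s * Complex.I)))
      ((b : ℂ) * (Complex.exp (-(t * Complex.I)) * (-Complex.I))) t :=
    ((hasDerivAt_exp_neg t).const_mul (b : ℂ)).const_add 1
  have h3 := (h2.clog_real (slit_aux hb t)).const_mul (Complex.I * (1 - b ^ 2))
  have h4 := h1.neg.sub h3
  refine h4.congr_deriv ?_
  have hd := den_ne hb t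
  unfold zf
  have he : Complex.exp (-(t * Complex.I)) = (Complex.exp (t * Complex.I))⁻¹ := Complex.exp_neg _
  have hw : Complex.exp (t * Complex.I) ≠ 0 := Complex.exp_ne_zero _
  rw [he] at hd ⊢
  have hI : Complex.I * Complex.I = -1 := Complex.I_mul_I
  generalize Complex.exp (t * Complex.I) = w at *
  have hd' : w + b ≠ 0 := by
    intro h
    apply hd
    have : (1 : ℂ) + b * w⁻¹ = (w + b) * w⁻¹ := by field_simp
    rw [this, h, zero_mul]
  field_simp
  linear_combination (b:ℂ) * (1 - w ^ 2 - b * w - b ^ 2) * hI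

lemma conj_exp_aux (t : ℝ) :
    (starRingEnd ℂ) (Complex.exp (t * Complex.I)) = Complex.exp (-(t * Complex.I)) := by
  rw [← Complex.exp_conj]
  simp

lemma norm_zf {b : ℝ} (hb : |b| < 1) (t : ℝ) : ‖zf b t‖ = 1 := by
  unfold zf
  have h : 1 + (b : ℂ) * Complex.exp (-(t * Complex.I)) =
      (starRingEnd ℂ) (1 + (b : ℂ) * Complex.exp (t * Complex.I)) := by
    rw [map_add, map_mul, conj_exp_aux]
    simp
  rw [norm_div, h, Complex.norm_conj, div_self]
  rw [← Complex.norm_conj, ← h]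
  exact norm_ne_zero_iff.mpr (den_ne hb t)

lemma norm_zf_sub_one {b : ℝ} (hb0 : 0 ≤ b) (hb : b ≤ 1 / 2) (t : ℝ) :
    ‖zf b t - 1‖ ≤ 4 * b := by
  have hb1 : |b| < 1 := by rw [abs_of_nonneg hb0]; linarith
  have hd := den_ne hb1 t
  have h1 : zf b t - 1 = (b * (Complex.exp (t * Complex.I) - Complex.exp (-(t * Complex.I)))) /
      (1 + (b : ℂ) * Complex.exp (-(t * Complex.I))) := by
    unfold zf
    rw [div_sub_one hd]
    congr 1
    ring
  rw [h1, norm_div, norm_mul, Complex.norm_real, Real.norm_eq_abs, abs_of_nonneg hb0]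
  have h2 : ‖Complex.exp (t * Complex.I) - Complex.exp (-(t * Complex.I))‖ ≤ 2 := by
    refine (norm_sub_le _ _).trans ?_
    rw [norm_exp_aux, Complex.norm_exp_ofReal_mul_I]
    norm_num
  have h3 : 1 / 2 ≤ ‖1 + (b : ℂ) * Complex.exp (-(t * Complex.I))‖ := by
    have h4 : ‖(1 : ℂ)‖ - ‖(b : ℂ) * Complex.exp (-(t * Complex.I))‖ ≤
        ‖1 + (b : ℂ) * Complex.exp (-(t * Complex.I))‖ := by
      have := norm_sub_norm_le (1 : ℂ) (-((b : ℂ) * Complex.exp (-(t * Complex.I))))
      rwa [sub_neg_eq_add, norm_neg] at this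
    rw [norm_mul, norm_exp_aux, mul_one, Complex.norm_real, Real.norm_eq_abs,
      abs_of_nonneg hb0, norm_one] at h4
    linarith
  rw [div_le_iff₀ (by linarith)]
  have h5 : b * ‖Complex.exp (t * Complex.I) - Complex.exp (-(t * Complex.I))‖ ≤ b * 2 :=
    mul_le_mul_of_nonneg_left h2 hb0
  nlinarith

end Pool.Agent.MP_65e1c6_gt
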