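import Pool.Agent.MP_65e1c6_gt.Rigid

open Set Filter Topology
open scoped ContDiff

namespace Pool.Agent.MP_65e1c6_gt

def KK : Set (ℝ × ℝ) := Icc 0 1 ×ˢ Icc 0 1

def DD : Set (ℝ × ℝ) := Ioo 0 1 ×ˢ Ioo 0 1

lemma DD_sub_KK : DD ⊆ KK := prod_mono Ioo_subset_Icc_self Ioo_subset_Icc_self

lemma isOpen_DD : IsOpen DD := isOpen_Ioo.prod isOpen_Ioo

lemma isCompact_KK : IsCompact KK := isCompact_Icc.prod isCompact_Icc

lemma good_f0 : Good KK 0 f0 := by
  refine ⟨fun x _ => contDiff_f0.contDiffAt, ?_⟩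
  rintro ⟨u, v⟩ ⟨⟨hu0, hu1⟩, ⟨hv0, hv1⟩⟩
  simp only at hu0 hu1 hv0 hv1
  have e0 : dl 0 = 1 / 10000 := by simp [dl]
  have e1 : dl (0 + 1) = 1 / 40000 := by rw [dl_succ, e0]; norm_num
  rw [e0, e1, pU_f0, pV_f0, Complex.norm_real, Real.norm_eq_abs]
  simp only
  have h1 : 0 ≤ (9999 / 10000 + 1 / 20000 * v : ℝ) := by positivity
  rw [abs_of_nonneg h1]
  refine ⟨by linarith, by linarith, ?_, ?_⟩
  · have := Complex.abs_im_le_norm (((9999 / 10000 : ℝ) : ℂ) * Complex.I + ((1 / 20000 * u : ℝ) : ℂ))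
    have e : (((9999 / 10000 : ℝ) : ℂ) * Complex.I + ((1 / 20000 * u : ℝ) : ℂ)).im = 9999 / 10000 := by
      simp only [Complex.add_im, Complex.mul_im, Complex.ofReal_re, Complex.ofReal_im,
        Complex.I_im, Complex.I_re]
      norm_num
    rw [e, abs_of_pos (by norm_num)] at this
    linarith
  · refine (norm_add_le _ _).trans ?_
    rw [norm_mul, Complex.norm_I, Complex.norm_real, Complex.norm_real, Real.norm_eq_abs,
      Real.norm_eq_abs, abs_of_pos (by norm_num), abs_of_nonneg (by positivity)]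
    linarith

theorem exists_seq : ∃ F : ℕ → ℝ × ℝ → ℂ, F 0 = f0 ∧ (∀ n, Good KK n (F n)) ∧
    ∀ n, ∀ x ∈ KK, ‖F (n + 1) x - F n x‖ ≤ dl n / 128 ∧
      ‖pU (F (n + 1)) x - pU (F n) x‖ ≤ 6 * sd n ∧ ‖pV (F (n + 1)) x - pV (F n) x‖ ≤ 6 * sd n := by
  have hstep : ∀ (n : ℕ) (f : {f // Good KK n f}), ∃ g : {g // Good KK (n + 1) g},
      ∀ x ∈ KK, ‖g.1 x - f.1 x‖ ≤ dl n / 128 ∧
      ‖pU g.1 x - pU f.1 x‖ ≤ 6 * sd n ∧ ‖pV g.1 x - pV f.1 x‖ ≤ 6 * sd n := by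
    rintro n ⟨f, hf⟩
    obtain ⟨g, hg, hgb⟩ := step isCompact_KK hf
    exact ⟨⟨g, hg⟩, hgb⟩
  choose nxt hnxt using hstep
  let G : (n : ℕ) → {f // Good KK n f} := fun n =>
    Nat.rec (motive := fun n => {f // Good KK n f}) ⟨f0, good_f0⟩ (fun n f => nxt n f) n
  exact ⟨fun n => (G n).1, rfl, fun n => (G n).2, fun n => hnxt n (G n)⟩

theorem exists_flexible : ∃ f : ℝ × ℝ → ℂ, ContDiffOn ℝ 1 f DD ∧ ∀ x ∈ DD,
    ‖f0 x - f x‖ ≤ 1 / 900000 ∧ ‖pU f x‖ = 1 ∧ ‖pV f x‖ = 1 ∧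
    ‖pU f x - 1‖ ≤ 13 / 100 ∧ ‖pV f x - Complex.I‖ ≤ 13 / 100 := by
  obtain ⟨F, hF0, hG, hF⟩ := exists_seq
  obtain ⟨g, hg1, hg⟩ := limit_lemma isOpen_DD (F := F)
    (fun n x hx => (hG n).1 x (DD_sub_KK hx)) (C0 := 1 / 1280000) (C := 6 / 100) (r0 := 1 / 4)
    (r := 1 / 2) (by norm_num) (by norm_num) (by norm_num)
    (fun n x hx => by
      have := (hF n x (DD_sub_KK hx)).1
      refine this.trans (le_of_eq ?_)
      unfold dl; ring)
    (fun n x hx => by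
      have := (hF n x (DD_sub_KK hx)).2.1
      refine this.trans (le_of_eq ?_)
      unfold sd; ring)
    (fun n x hx => by
      have := (hF n x (DD_sub_KK hx)).2.2
      refine this.trans (le_of_eq ?_)
      unfold sd; ring)
  have hdl : Tendsto dl atTop (𝓝 0) := by
    unfold dl
    have := (tendsto_pow_atTop_nhds_zero_of_lt_one (r := (1 / 4 : ℝ)) (by norm_num)
      (by norm_num)).const_mul (1 / 10000)
    simpa using this
  have hlow : Tendsto (fun n => 1 - dl n) atTop (𝓝 1) := by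
    simpa using tendsto_const_nhds.sub hdl
  have hup : Tendsto (fun n => 1 - dl (n + 1)) atTop (𝓝 1) :=
    hlow.comp (tendsto_add_atTop_nat 1)
  refine ⟨g, hg1, fun x hx => ?_⟩
  obtain ⟨a0, aU, aV, bU, bV⟩ := hg x hx
  have hxK := DD_sub_KK hx
  rw [hF0] at a0 bU bV
  refine ⟨a0.trans (by norm_num), ?_, ?_, ?_, ?_⟩
  · have h1 : Tendsto (fun n => ‖pU (F n) x‖) atTop (𝓝 1) :=
      tendsto_of_tendsto_of_tendsto_of_le_of_le hlow hup
        (fun n => ((hG n).2 x hxK).1) (fun n => ((hG n).2 x hxK).2.1)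
    exact tendsto_nhds_unique aU.norm h1
  · have h1 : Tendsto (fun n => ‖pV (F n) x‖) atTop (𝓝 1) :=
      tendsto_of_tendsto_of_tendsto_of_le_of_le hlow hup
        (fun n => ((hG n).2 x hxK).2.2.1) (fun n => ((hG n).2 x hxK).2.2.2)
    exact tendsto_nhds_unique aV.norm h1
  · obtain ⟨u, v⟩ := x
    obtain ⟨⟨hu0, hu1⟩, ⟨hv0, hv1⟩⟩ := hxK
    simp only at hu0 hu1 hv0 hv1
    have e : pU g (u, v) - 1 = (pU f0 (u, v) - 1) - (pU f0 (u, v) - pU g (u, v)) := by ring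
    rw [e]
    refine (norm_sub_le _ _).trans ?_
    have e2 : pU f0 (u, v) - 1 = ((9999 / 10000 + 1 / 20000 * v - 1 : ℝ) : ℂ) := by
      rw [pU_f0]; push_cast; ring
    have e3 : ‖pU f0 (u, v) - 1‖ ≤ 1 / 10000 := by
      rw [e2, Complex.norm_real, Real.norm_eq_abs, abs_le]
      constructor <;> linarith
    norm_num at bU
    linarith
  · obtain ⟨u, v⟩ := x
    obtain ⟨⟨hu0, hu1⟩, ⟨hv0, hv1⟩⟩ := hxK
    simp only at hu0 hu1 hv0 hv1
    have e : pV g (u, v) - Complex.I =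
        (pV f0 (u, v) - Complex.I) - (pV f0 (u, v) - pV g (u, v)) := by ring
    rw [e]
    refine (norm_sub_le _ _).trans ?_
    have e2 : pV f0 (u, v) - Complex.I =
        ((-(1 / 10000) : ℝ) : ℂ) * Complex.I + ((1 / 20000 * u : ℝ) : ℂ) := by
      rw [pV_f0]; push_cast; ring
    have e3 : ‖pV f0 (u, v) - Complex.I‖ ≤ 2 / 10000 := by
      rw [e2]
      refine (norm_add_le _ _).trans ?_
      rw [norm_mul, Complex.norm_I, Complex.norm_real, Complex.norm_real, Real.norm_eq_abs,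
        Real.norm_eq_abs, abs_of_neg (by norm_num), abs_of_nonneg (by positivity)]
      linarith
    norm_num at bV
    linarith

end Pool.Agent.MP_65e1c6_gt
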