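import Pool.Agent.MP_65e1c6_gt.UStep

open Set Filter Topology
open scoped ContDiff

namespace Pool.Agent.MP_65e1c6_gt

lemma swap_facts {f : ℝ × ℝ → ℂ} {x : ℝ × ℝ} (hf : ContDiffAt ℝ ∞ f (Prod.swap x)) :
    ContDiffAt ℝ ∞ (fun y => f (Prod.swap y)) x ∧
    pU (fun y => f (Prod.swap y)) x = pV f (Prod.swap x) ∧
    pV (fun y => f (Prod.swap y)) x = pU f (Prod.swap x) := by
  have hs : ContDiff ℝ ∞ (Prod.swap : ℝ × ℝ → ℝ × ℝ) := contDiff_snd.prodMk contDiff_fst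
  have hsd : HasFDerivAt (Prod.swap : ℝ × ℝ → ℝ × ℝ)
      ((ContinuousLinearMap.snd ℝ ℝ ℝ).prod (ContinuousLinearMap.fst ℝ ℝ ℝ)) x :=
    hasFDerivAt_snd.prodMk hasFDerivAt_fst
  have hd : HasFDerivAt f (fderiv ℝ f (Prod.swap x)) (Prod.swap x) :=
    (hf.differentiableAt (by simp)).hasFDerivAt
  have hc : HasFDerivAt (fun y => f (Prod.swap y)) ((fderiv ℝ f (Prod.swap x)).comp
      ((ContinuousLinearMap.snd ℝ ℝ ℝ).prod (ContinuousLinearMap.fst ℝ ℝ ℝ))) x :=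
    hd.comp x hsd
  refine ⟨hf.comp x hs.contDiffAt, ?_, ?_⟩
  · unfold pU pV
    rw [hc.fderiv]
    simp
  · unfold pU pV
    rw [hc.fderiv]
    simp

/-- The corrugation step in the second variable. -/
theorem v_step {K : Set (ℝ × ℝ)} (hK : IsCompact K) {f : ℝ × ℝ → ℂ}
    (hf : ∀ x ∈ K, ContDiffAt ℝ ∞ f x) {r : ℝ} (hr : 0 < r)
    (h1 : ∀ x ∈ K, 3 / 4 * r ≤ ‖pV f x‖) (h2 : ∀ x ∈ K, ‖pV f x‖ < r) {η : ℝ} (hη : 0 < η) :
    ∃ g : ℝ × ℝ → ℂ, (∀ x ∈ K, ContDiffAt ℝ ∞ g x) ∧ ∀ x ∈ K,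
      ‖g x - f x‖ ≤ η ∧ ‖pU g x - pU f x‖ ≤ η ∧ |‖pV g x‖ - r| ≤ η ∧
      ‖pV g x - pV f x‖ ≤ 5 * r * √(1 - ‖pV f x‖ / r) + η := by
  have hK' : IsCompact (Prod.swap '' K) := hK.image continuous_swap
  have key : ∀ x ∈ Prod.swap '' K, Prod.swap x ∈ K := by
    rintro _ ⟨y, hy, rfl⟩
    simpa using hy
  have hs : ∀ x ∈ Prod.swap '' K, _ := fun x hx => swap_facts (hf _ (key x hx))
  obtain ⟨g, hg, hgb⟩ := u_step hK' (f := fun y => f (Prod.swap y)) (fun x hx => (hs x hx).1) hr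
    (fun x hx => by rw [(hs x hx).2.1]; exact h1 _ (key x hx))
    (fun x hx => by rw [(hs x hx).2.1]; exact h2 _ (key x hx)) hη
  have key2 : ∀ x ∈ K, Prod.swap x ∈ Prod.swap '' K := fun x hx => ⟨x, hx, rfl⟩
  have hs2 : ∀ x ∈ K, _ := fun x hx => swap_facts (hg _ (key2 x hx))
  refine ⟨fun y => g (Prod.swap y), fun x hx => (hs2 x hx).1, fun x hx => ?_⟩
  obtain ⟨a1, a2, a3, a4⟩ := hgb _ (key2 x hx)
  have b := hs _ (key2 x hx)
  rw [b.2.1] at a4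
  rw [b.2.2] at a2
  simp only [Prod.swap_swap] at a1 a2 a3 a4
  have c := hs2 x hx
  refine ⟨a1, ?_, ?_, ?_⟩
  · rw [c.2.1]; exact a2
  · rw [c.2.2]; exact a3
  · rw [c.2.2]; exact a4

noncomputable def dl (k : ℕ) : ℝ := (1 / 10000) * (1 / 4) ^ k

lemma dl_pos (k : ℕ) : 0 < dl k := by unfold dl; positivity

lemma dl_succ (k : ℕ) : dl (k + 1) = dl k / 4 := by unfold dl; rw [pow_succ]; ring

lemma dl_le (k : ℕ) : dl k ≤ 1 / 10000 := by
  unfold dl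
  have : ((1 : ℝ) / 4) ^ k ≤ 1 := pow_le_one₀ (by norm_num) (by norm_num)
  linarith

noncomputable def sd (k : ℕ) : ℝ := (1 / 100) * (1 / 2) ^ k

lemma sd_pos (k : ℕ) : 0 < sd k := by unfold sd; positivity

lemma sd_sq (k : ℕ) : sd k ^ 2 = dl k := by
  unfold sd dl
  rw [mul_pow, ← pow_mul, mul_comm k 2, pow_mul]
  norm_num

lemma sd_le (k : ℕ) : sd k ≤ 1 / 100 := by
  unfold sd
  have : ((1 : ℝ) / 2) ^ k ≤ 1 := pow_le_one₀ (by norm_num) (by norm_num)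
  linarith

/-- Stage `k` of the iteration. -/
def Good (K : Set (ℝ × ℝ)) (k : ℕ) (f : ℝ × ℝ → ℂ) : Prop :=
  (∀ x ∈ K, ContDiffAt ℝ ∞ f x) ∧ ∀ x ∈ K, 1 - dl k ≤ ‖pU f x‖ ∧ ‖pU f x‖ ≤ 1 - dl (k + 1) ∧
    1 - dl k ≤ ‖pV f x‖ ∧ ‖pV f x‖ ≤ 1 - dl (k + 1)

lemma sqrt_bound {k : ℕ} {p r : ℝ} (hr : 0 < r) (hr1 : r ≤ 1) (hp : 1 - dl k * (1 + 1 / 100) ≤ p) :
    5 * r * √(1 - p / r) ≤ 5 * (1 + 1 / 100) * sd k := by
  have hs := sd_pos k
  have hd := dl_pos k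
  have hdl := dl_le k
  have h1 : p ≤ p / r := by
    rw [le_div_iff₀ hr]
    have : 0 ≤ p := by nlinarith
    nlinarith
  have h2 : √(1 - p / r) ≤ (1 + 1 / 100) * sd k := by
    rw [Real.sqrt_le_left (by positivity), mul_pow, sd_sq]
    nlinarith
  have h3 : 0 ≤ √(1 - p / r) := Real.sqrt_nonneg _
  calc 5 * r * √(1 - p / r) ≤ 5 * 1 * √(1 - p / r) := by gcongr
    _ ≤ 5 * 1 * ((1 + 1 / 100) * sd k) := by gcongr
    _ = 5 * (1 + 1 / 100) * sd k := by ring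

theorem step {K : Set (ℝ × ℝ)} (hK : IsCompact K) {k : ℕ} {f : ℝ × ℝ → ℂ} (hf : Good K k f) :
    ∃ g : ℝ × ℝ → ℂ, Good K (k + 1) g ∧ ∀ x ∈ K, ‖g x - f x‖ ≤ dl k / 128 ∧
      ‖pU g x - pU f x‖ ≤ 6 * sd k ∧ ‖pV g x - pV f x‖ ≤ 6 * sd k := by
  obtain ⟨hsm, hb⟩ := hf
  have hd := dl_pos k
  have hdl := dl_le k
  have hs := sd_pos k
  have hsl := sd_le k
  have hsq := sd_sq k
  have e1 := dl_succ k
  have e2 := dl_succ (k + 1)
  have hds : dl k ≤ sd k / 100 := by nlinarith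
  set r : ℝ := 1 - dl k / 8 with hrdef
  have hr : 0 < r := by rw [hrdef]; linarith
  have hr1 : r ≤ 1 := by rw [hrdef]; linarith
  obtain ⟨g, hg, hgb⟩ := u_step hK hsm hr
    (fun x hx => by have := (hb x hx).1; rw [hrdef]; linarith)
    (fun x hx => by have := (hb x hx).2.1; rw [e1] at this; rw [hrdef]; linarith)
    (η := dl k / 256) (by positivity)
  obtain ⟨g', hg', hgb'⟩ := v_step hK hg hr
    (fun x hx => by
      have h1 := (hb x hx).2.2.1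
      have h2 := (hgb x hx).2.1
      have h3 := abs_norm_sub_norm_le (pV g x) (pV f x)
      have h4 := (abs_le.mp (h3.trans h2)).1
      rw [hrdef]; linarith)
    (fun x hx => by
      have h1 := (hb x hx).2.2.2
      have h2 := (hgb x hx).2.1
      have h3 := abs_norm_sub_norm_le (pV g x) (pV f x)
      have h4 := (abs_le.mp (h3.trans h2)).2
      rw [e1] at h1
      rw [hrdef]; linarith)
    (η := dl k / 256) (by positivity)
  refine ⟨g', ⟨hg', fun x hx => ?_⟩, fun x hx => ?_⟩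
  · obtain ⟨-, a2, a3, -⟩ := hgb x hx
    obtain ⟨-, b2, b3, -⟩ := hgb' x hx
    have h3 := (abs_norm_sub_norm_le (pU g' x) (pU g x)).trans b2
    obtain ⟨c1, c2⟩ := abs_le.mp h3
    obtain ⟨c3, c4⟩ := abs_le.mp a3
    obtain ⟨c5, c6⟩ := abs_le.mp b3
    rw [e2, e1]
    refine ⟨?_, ?_, ?_, ?_⟩ <;> linarith
  · obtain ⟨a1, a2, a3, a4⟩ := hgb x hx
    obtain ⟨b1, b2, b3, b4⟩ := hgb' x hx
    obtain ⟨f1, f2, f3, f4⟩ := hb x hx
    refine ⟨?_, ?_, ?_⟩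
    · have : g' x - f x = (g' x - g x) + (g x - f x) := by ring
      rw [this]
      refine (norm_add_le _ _).trans ?_
      linarith
    · have : pU g' x - pU f x = (pU g' x - pU g x) + (pU g x - pU f x) := by ring
      rw [this]
      refine (norm_add_le _ _).trans ?_
      have := sqrt_bound (k := k) (p := ‖pU f x‖) hr hr1 (by linarith)
      linarith
    · have : pV g' x - pV f x = (pV g' x - pV g x) + (pV g x - pV f x) := by ring
      rw [this]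
      refine (norm_add_le _ _).trans ?_
      have h3 := abs_norm_sub_norm_le (pV g x) (pV f x)
      have h4 := (abs_le.mp (h3.trans a2)).1
      have := sqrt_bound (k := k) (p := ‖pV g x‖) hr hr1 (by linarith)
      linarith

end Pool.Agent.MP_65e1c6_gt
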