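import Pool.Agent.MP_65e1c6_gt.Iter

open Set Filter Topology
open scoped ContDiff

namespace Pool.Agent.MP_65e1c6_gt

/-- The linear map with prescribed partial derivatives. -/
noncomputable def mk2 (p q : ℂ) : ℝ × ℝ →L[ℝ] ℂ :=
  (ContinuousLinearMap.fst ℝ ℝ ℝ).smulRight p + (ContinuousLinearMap.snd ℝ ℝ ℝ).smulRight q

lemma mk2_apply (p q : ℂ) (x : ℝ × ℝ) : mk2 p q x = x.1 • p + x.2 • q := by
  simp [mk2]

lemma mk2_self (L : ℝ × ℝ →L[ℝ] ℂ) : mk2 (L (1, 0)) (L (0, 1)) = L := by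
  ext <;> simp [mk2_apply]

lemma mk2_sub_norm (p q p' q' : ℂ) : ‖mk2 p q - mk2 p' q'‖ ≤ ‖p - p'‖ + ‖q - q'‖ := by
  refine ContinuousLinearMap.opNorm_le_bound _ (by positivity) fun x => ?_
  have : (mk2 p q - mk2 p' q') x = x.1 • (p - p') + x.2 • (q - q') := by
    rw [sub_apply, mk2_apply, mk2_apply, smul_sub, smul_sub]
    abel
  rw [this]
  refine (norm_add_le _ _).trans ?_
  rw [norm_smul, norm_smul, add_mul, mul_comm ‖p - p'‖, mul_comm ‖q - q'‖]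
  have h1 : ‖x.1‖ ≤ ‖x‖ := norm_fst_le x
  have h2 : ‖x.2‖ ≤ ‖x‖ := norm_snd_le x
  gcongr

lemma geo_limit {D : Set (ℝ × ℝ)} {G : ℕ → ℝ × ℝ → ℂ} {C r : ℝ} (hr : r < 1)
    (h : ∀ n, ∀ x ∈ D, ‖G (n + 1) x - G n x‖ ≤ C * r ^ n) :
    ∃ g : ℝ × ℝ → ℂ, ∀ x ∈ D, Tendsto (fun n => G n x) atTop (𝓝 (g x)) ∧
      ∀ n, ‖G n x - g x‖ ≤ C * r ^ n / (1 - r) := by
  have h1 : ∀ x ∈ D, ∀ n, dist (G n x) (G (n + 1) x) ≤ C * r ^ n := by
    intro x hx n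
    rw [dist_comm, dist_eq_norm]
    exact h n x hx
  have h2 : ∀ x : ℝ × ℝ, ∃ y, x ∈ D → Tendsto (fun n => G n x) atTop (𝓝 y) := by
    intro x
    by_cases hx : x ∈ D
    · obtain ⟨y, hy⟩ := cauchySeq_tendsto_of_complete
        (cauchySeq_of_le_geometric r C hr (h1 x hx))
      exact ⟨y, fun _ => hy⟩
    · exact ⟨0, fun h => absurd h hx⟩
  choose g hg using h2
  refine ⟨g, fun x hx => ⟨hg x hx, fun n => ?_⟩⟩
  rw [← dist_eq_norm]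
  exact dist_le_of_le_geometric_of_tendsto r C hr (h1 x hx) (hg x hx) n

theorem limit_lemma {D : Set (ℝ × ℝ)} (hD : IsOpen D) {F : ℕ → ℝ × ℝ → ℂ}
    (hF : ∀ n, ∀ x ∈ D, ContDiffAt ℝ ∞ (F n) x) {C0 C r0 r : ℝ} (hr0 : r0 < 1)
    (hr : 0 ≤ r) (hr1 : r < 1)
    (h0 : ∀ n, ∀ x ∈ D, ‖F (n + 1) x - F n x‖ ≤ C0 * r0 ^ n)
    (hU : ∀ n, ∀ x ∈ D, ‖pU (F (n + 1)) x - pU (F n) x‖ ≤ C * r ^ n)
    (hV : ∀ n, ∀ x ∈ D, ‖pV (F (n + 1)) x - pV (F n) x‖ ≤ C * r ^ n) :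
    ∃ g : ℝ × ℝ → ℂ, ContDiffOn ℝ 1 g D ∧ ∀ x ∈ D,
      ‖F 0 x - g x‖ ≤ C0 / (1 - r0) ∧
      Tendsto (fun n => pU (F n) x) atTop (𝓝 (pU g x)) ∧
      Tendsto (fun n => pV (F n) x) atTop (𝓝 (pV g x)) ∧
      ‖pU (F 0) x - pU g x‖ ≤ C / (1 - r) ∧ ‖pV (F 0) x - pV g x‖ ≤ C / (1 - r) := by
  obtain ⟨g, hg⟩ := geo_limit hr0 h0
  obtain ⟨gU, hgU⟩ := geo_limit (G := fun n => pU (F n)) hr1 hU
  obtain ⟨gV, hgV⟩ := geo_limit (G := fun n => pV (F n)) hr1 hV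
  have hunif : TendstoUniformlyOn (fun n => fderiv ℝ (F n)) (fun x => mk2 (gU x) (gV x))
      atTop D := by
    rw [Metric.tendstoUniformlyOn_iff]
    intro ε hε
    have hlim : Tendsto (fun n : ℕ => 2 * (C * r ^ n / (1 - r))) atTop (𝓝 (2 * (C * 0 / (1 - r)))) :=
      ((((tendsto_pow_atTop_nhds_zero_of_lt_one hr hr1).const_mul C).div_const _).const_mul 2)
    have h0' : 2 * (C * 0 / (1 - r)) < ε := by simpa using hε
    filter_upwards [hlim.eventually_lt_const h0'] with n hn x hx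
    rw [dist_comm, dist_eq_norm, ← mk2_self (fderiv ℝ (F n) x)]
    refine lt_of_le_of_lt (mk2_sub_norm _ _ _ _) ?_
    have e1 : ‖fderiv ℝ (F n) x (1, 0) - gU x‖ ≤ C * r ^ n / (1 - r) := (hgU x hx).2 n
    have e2 : ‖fderiv ℝ (F n) x (0, 1) - gV x‖ ≤ C * r ^ n / (1 - r) := (hgV x hx).2 n
    linarith
  have hder : ∀ x ∈ D, HasFDerivAt g (mk2 (gU x) (gV x)) x := by
    intro x hx
    exact hasFDerivAt_of_tendstoUniformlyOn hD hunif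
      (fun n x hx => ((hF n x hx).differentiableAt (by simp)).hasFDerivAt)
      (fun x hx => (hg x hx).1) hx
  have hcont : ContinuousOn (fun x => mk2 (gU x) (gV x)) D := by
    refine hunif.continuousOn (Eventually.of_forall fun n x hx => ?_).frequently
    exact ((hF n x hx).continuousAt_fderiv (by simp)).continuousWithinAt
  have hpU : ∀ x ∈ D, pU g x = gU x := fun x hx => by
    unfold pU; rw [(hder x hx).fderiv, mk2_apply]; simp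
  have hpV : ∀ x ∈ D, pV g x = gV x := fun x hx => by
    unfold pV; rw [(hder x hx).fderiv, mk2_apply]; simp
  refine ⟨g, ?_, fun x hx => ⟨?_, ?_, ?_, ?_, ?_⟩⟩
  · rw [show (1 : WithTop ℕ∞) = 0 + 1 by simp, contDiffOn_succ_iff_fderiv_of_isOpen hD]
    refine ⟨fun x hx => (hder x hx).differentiableAt.differentiableWithinAt, by simp, ?_⟩
    rw [contDiffOn_zero]
    exact hcont.congr fun x hx => (hder x hx).fderiv
  · have := (hg x hx).2 0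
    simpa using this
  · rw [hpU x hx]; exact (hgU x hx).1
  · rw [hpV x hx]; exact (hgV x hx).1
  · rw [hpU x hx]; have := (hgU x hx).2 0; simpa using this
  · rw [hpV x hx]; have := (hgV x hx).2 0; simpa using this

/-- The initial short map. -/
noncomputable def f0 (x : ℝ × ℝ) : ℂ :=
  (9999 / 10000 : ℝ) • ((x.1 : ℂ) + x.2 * Complex.I) + ((1 / 20000 : ℝ) * (x.1 * x.2) : ℝ)

lemma hasFDerivAt_f0 (x : ℝ × ℝ) : HasFDerivAt f0
    (mk2 (((9999 / 10000 : ℝ) : ℂ) + ((1 / 20000 * x.2 : ℝ) : ℂ))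
      (((9999 / 10000 : ℝ) : ℂ) * Complex.I + ((1 / 20000 * x.1 : ℝ) : ℂ))) x := by
  have h1 : HasFDerivAt (fun x : ℝ × ℝ => ((x.1 : ℝ) : ℂ))
      (Complex.ofRealCLM.comp (ContinuousLinearMap.fst ℝ ℝ ℝ)) x :=
    Complex.ofRealCLM.hasFDerivAt.comp x hasFDerivAt_fst
  have h2 : HasFDerivAt (fun x : ℝ × ℝ => ((x.2 : ℝ) : ℂ))
      (Complex.ofRealCLM.comp (ContinuousLinearMap.snd ℝ ℝ ℝ)) x :=
    Complex.ofRealCLM.hasFDerivAt.comp x hasFDerivAt_snd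
  have h3 : HasFDerivAt (fun x : ℝ × ℝ => x.1 * x.2)
      (x.1 • ContinuousLinearMap.snd ℝ ℝ ℝ + x.2 • ContinuousLinearMap.fst ℝ ℝ ℝ) x :=
    hasFDerivAt_fst.mul hasFDerivAt_snd
  have h4 : HasFDerivAt (fun x : ℝ × ℝ => (((1 / 20000 : ℝ) * (x.1 * x.2) : ℝ) : ℂ))
      (Complex.ofRealCLM.comp ((1 / 20000 : ℝ) • (x.1 • ContinuousLinearMap.snd ℝ ℝ ℝ +
        x.2 • ContinuousLinearMap.fst ℝ ℝ ℝ))) x :=
    Complex.ofRealCLM.hasFDerivAt.comp x (h3.const_mul _)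
  have h5 := ((h1.add (h2.mul_const Complex.I)).const_smul (9999 / 10000 : ℝ)).add h4
  refine h5.congr_fderiv ?_
  ext
  · simp [mk2_apply]
  · simp [mk2_apply]

lemma contDiff_f0 : ContDiff ℝ ∞ f0 := by
  have h1 : ContDiff ℝ ∞ (fun x : ℝ × ℝ => ((x.1 : ℝ) : ℂ)) :=
    Complex.ofRealCLM.contDiff.comp contDiff_fst
  have h2 : ContDiff ℝ ∞ (fun x : ℝ × ℝ => ((x.2 : ℝ) : ℂ)) :=
    Complex.ofRealCLM.contDiff.comp contDiff_snd
  have h4 : ContDiff ℝ ∞ (fun x : ℝ × ℝ => (((1 / 20000 : ℝ) * (x.1 * x.2) : ℝ) : ℂ)) :=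
    Complex.ofRealCLM.contDiff.comp (contDiff_const.mul (contDiff_fst.mul contDiff_snd))
  exact ((h1.add (h2.mul contDiff_const)).const_smul (9999 / 10000 : ℝ)).add h4

lemma pU_f0 (x : ℝ × ℝ) : pU f0 x = ((9999 / 10000 + 1 / 20000 * x.2 : ℝ) : ℂ) := by
  unfold pU
  rw [(hasFDerivAt_f0 x).fderiv, mk2_apply]
  push_cast
  simp

lemma pV_f0 (x : ℝ × ℝ) :
    pV f0 x = ((9999 / 10000 : ℝ) : ℂ) * Complex.I + ((1 / 20000 * x.1 : ℝ) : ℂ) := by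
  unfold pV
  rw [(hasFDerivAt_f0 x).fderiv, mk2_apply]
  simp

end Pool.Agent.MP_65e1c6_gt
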