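import Pool.Agent.MP_65e1c6_gt.Limit

open Set Filter Topology
open scoped ContDiff

namespace Pool.Agent.MP_65e1c6_gt

lemma mk2_inj {p q : ℂ} (h : ((starRingEnd ℂ) p * q).im ≠ 0) : Function.Injective (mk2 p q) := by
  rw [injective_iff_map_eq_zero]
  intro x hx
  rw [mk2_apply] at hx
  have h1 : (starRingEnd ℂ) p * (x.1 • p + x.2 • q) = 0 := by rw [hx, mul_zero]
  have h2 : (starRingEnd ℂ) q * (x.1 • p + x.2 • q) = 0 := by rw [hx, mul_zero]
  have h3 := congrArg Complex.im h1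
  have h4 := congrArg Complex.im h2
  simp only [Complex.mul_im, Complex.conj_re, Complex.conj_im, Complex.add_re, Complex.add_im,
    Complex.real_smul, Complex.mul_re, Complex.ofReal_re, Complex.ofReal_im, zero_mul, sub_zero,
    add_zero, Complex.zero_im] at h h3 h4
  have e2 : x.2 * (p.re * q.im + -p.im * q.re) = 0 := by linarith
  have e1 : x.1 * (p.re * q.im + -p.im * q.re) = 0 := by linarith
  have f1 := (mul_eq_zero.mp e1).resolve_right h
  have f2 := (mul_eq_zero.mp e2).resolve_right h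
  exact Prod.ext f1 f2

noncomputable def mk2E (p q : ℂ) (h : ((starRingEnd ℂ) p * q).im ≠ 0) : (ℝ × ℝ) ≃L[ℝ] ℂ :=
  (LinearMap.linearEquivOfInjective (mk2 p q : ℝ × ℝ →ₗ[ℝ] ℂ) (mk2_inj h)
    (by simp [Complex.finrank_real_complex])).toContinuousLinearEquiv

lemma mk2E_coe (p q : ℂ) (h : ((starRingEnd ℂ) p * q).im ≠ 0) :
    ((mk2E p q h : (ℝ × ℝ) ≃L[ℝ] ℂ) : ℝ × ℝ →L[ℝ] ℂ) = mk2 p q := by
  ext <;> simp [mk2E]

lemma mk2_mul (c p q : ℂ) : mk2 (c * p) (c * q) =
    (c • ContinuousLinearMap.id ℂ ℂ).restrictScalars ℝ ∘L mk2 p q := by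
  ext <;> simp [mk2_apply]

/-- The explicit chart. -/
noncomputable def chart (g h : ℝ → ℝ) (u0 v0 : ℝ) (x : ℝ × ℝ) : ℂ :=
  (∫ s in u0..x.1, Complex.exp (g s * Complex.I)) +
    ∫ s in v0..x.2, Complex.I * Complex.exp (-(h s * Complex.I))

lemma chart_deriv {g h : ℝ → ℝ} (hg : Continuous g) (hh : Continuous h) (u0 v0 : ℝ) (x : ℝ × ℝ) :
    HasStrictFDerivAt (chart g h u0 v0)
      (mk2 (Complex.exp (g x.1 * Complex.I)) (Complex.I * Complex.exp (-(h x.2 * Complex.I)))) x := by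
  have c1 : Continuous fun s : ℝ => Complex.exp (g s * Complex.I) := by fun_prop
  have c2 : Continuous fun s : ℝ => Complex.I * Complex.exp (-(h s * Complex.I)) := by fun_prop
  have h1 := (c1.integral_hasStrictDerivAt u0 x.1).hasStrictFDerivAt
  have h2 := (c2.integral_hasStrictDerivAt v0 x.2).hasStrictFDerivAt
  have h3 := h1.comp x (hasStrictFDerivAt_fst (p := x))
  have h4 := h2.comp x (hasStrictFDerivAt_snd (p := x))
  refine (h3.add h4).congr_fderiv ?_
  ext <;> simp [mk2_apply]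

theorem rigid {f : ℝ × ℝ → ℂ} {R : Set (ℝ × ℝ)} {x0 : ℝ × ℝ} (hR : R ∈ 𝓝 x0)
    (hf : ∀ x ∈ R, DifferentiableAt ℝ f x) {g h : ℝ → ℝ} (hg : Continuous g) (hh : Continuous h)
    (hV : ∀ x ∈ R, pV f x = pU f x * (Complex.I * Complex.exp (-((g x.1 + h x.2 : ℝ) * Complex.I))))
    (hcos : ∀ x ∈ R, Real.cos (g x.1 + h x.2) ≠ 0) (hU : ∀ x ∈ R, ‖pU f x‖ = 1) :
    ∀ᶠ x in 𝓝 x0, pU f x * Complex.exp (-(g x.1 * Complex.I)) =
      pU f x0 * Complex.exp (-(g x0.1 * Complex.I)) := by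
  set F := chart g h x0.1 x0.2 with hF
  have hdet : ∀ x ∈ R, ((starRingEnd ℂ) (Complex.exp (g x.1 * Complex.I)) *
      (Complex.I * Complex.exp (-(h x.2 * Complex.I)))).im ≠ 0 := by
    intro x hx
    have e1 : (starRingEnd ℂ) (Complex.exp (g x.1 * Complex.I)) *
      (Complex.I * Complex.exp (-(h x.2 * Complex.I))) =
      Complex.I * Complex.exp (((-(g x.1 + h x.2) : ℝ) : ℂ) * Complex.I) := by
      rw [conj_exp_aux, mul_left_comm, ← Complex.exp_add]
      congr 2
      push_cast; ring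
    rw [e1, Complex.I_mul_im, Complex.exp_ofReal_mul_I_re, Real.cos_neg]
    exact hcos x hx
  have hFd : ∀ x, HasStrictFDerivAt F (mk2 (Complex.exp (g x.1 * Complex.I))
      (Complex.I * Complex.exp (-(h x.2 * Complex.I)))) x := fun x => chart_deriv hg hh _ _ x
  have hx0 : x0 ∈ R := mem_of_mem_nhds hR
  have hFd0 : HasStrictFDerivAt F ((mk2E _ _ (hdet x0 hx0) : (ℝ × ℝ) ≃L[ℝ] ℂ) : ℝ × ℝ →L[ℝ] ℂ) x0 := by
    rw [mk2E_coe]; exact hFd x0
  set e := hFd0.toOpenPartialHomeomorph F with he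
  have heF : (e : ℝ × ℝ → ℂ) = F := hFd0.toOpenPartialHomeomorph_coe
  have hx0s : x0 ∈ e.source := hFd0.mem_toOpenPartialHomeomorph_source
  set ρ : ℝ × ℝ → ℂ := fun x => pU f x * Complex.exp (-(g x.1 * Complex.I)) with hρ
  have hsymm0 : e.symm (F x0) = x0 := by rw [← heF]; exact e.left_inv hx0s
  have hρn : ∀ x ∈ R, ‖ρ x‖ = 1 := by
    intro x hx
    rw [hρ]
    simp only
    rw [norm_mul, hU x hx, norm_exp_aux, one_mul]
  -- derivative of f o e.symm
  have hΦ : ∀ y ∈ e.target, e.symm y ∈ R → HasDerivAt (fun z => f (e.symm z)) (ρ (e.symm y)) y := by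
    intro y hy hyR
    set x := e.symm y with hx
    have h1 : HasFDerivAt e ((mk2E _ _ (hdet x hyR) : (ℝ × ℝ) ≃L[ℝ] ℂ) : ℝ × ℝ →L[ℝ] ℂ) x := by
      rw [mk2E_coe, heF]; exact (hFd x).hasFDerivAt
    have h2 : HasFDerivAt e.symm _ y := e.hasFDerivAt_symm hy h1
    have h3 : HasFDerivAt f (mk2 (pU f x) (pV f x)) x := by
      have := (hf x hyR).hasFDerivAt
      unfold pU pV
      rwa [mk2_self]
    have h4 := h3.comp y h2
    have e1 : mk2 (pU f x) (pV f x) = (ρ x • ContinuousLinearMap.id ℂ ℂ).restrictScalars ℝ ∘L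
        mk2 (Complex.exp (g x.1 * Complex.I)) (Complex.I * Complex.exp (-(h x.2 * Complex.I))) := by
      rw [← mk2_mul]
      congr 1
      · rw [hρ]
        simp only
        rw [mul_assoc, ← Complex.exp_add]
        simp
      · rw [hV x hyR, hρ]
        simp only
        have e2 : Complex.exp (-(((g x.1 + h x.2 : ℝ) : ℂ) * Complex.I)) =
            Complex.exp (-(g x.1 * Complex.I)) * Complex.exp (-(h x.2 * Complex.I)) := by
          rw [← Complex.exp_add]
          congr 1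
          push_cast; ring
        rw [e2]; ring
    have e3 : mk2 (pU f x) (pV f x) ∘L
        (((mk2E _ _ (hdet x hyR) : (ℝ × ℝ) ≃L[ℝ] ℂ).symm : ℂ ≃L[ℝ] ℝ × ℝ) : ℂ →L[ℝ] ℝ × ℝ) =
        (ρ x • ContinuousLinearMap.id ℂ ℂ).restrictScalars ℝ := by
      rw [e1, ← mk2E_coe _ _ (hdet x hyR), ContinuousLinearMap.comp_assoc]
      ext1 z
      simp
    rw [e3] at h4
    have h5 : HasFDerivAt (fun z => f (e.symm z)) (ρ x • ContinuousLinearMap.id ℂ ℂ) y :=
      hasFDerivAt_of_restrictScalars ℝ h4 rfl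
    have h6 := h5.hasDerivAt
    simpa using h6
  -- a ball on which everything works
  have hev : ∀ᶠ y in 𝓝 (F x0), y ∈ e.target ∧ e.symm y ∈ R := by
    have ht : F x0 ∈ e.target := by rw [← heF]; exact e.map_source hx0s
    have hc : ContinuousAt e.symm (F x0) := e.symm.continuousAt ht
    refine (e.open_target.mem_nhds ht |> Filter.Eventually.and <| ?_)
    apply hc
    rw [hsymm0]; exact hR
  obtain ⟨ε, hε, hball⟩ := Metric.eventually_nhds_iff_ball.mp hev
  have hdiff : DifferentiableOn ℂ (fun z => f (e.symm z)) (Metric.ball (F x0) ε) := fun y hy =>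
    (hΦ y (hball y hy).1 (hball y hy).2).differentiableAt.differentiableWithinAt
  have hdiff2 : DifferentiableOn ℂ (deriv fun z => f (e.symm z)) (Metric.ball (F x0) ε) :=
    hdiff.deriv Metric.isOpen_ball
  have hderiv : ∀ y ∈ Metric.ball (F x0) ε, deriv (fun z => f (e.symm z)) y = ρ (e.symm y) :=
    fun y hy => (hΦ y (hball y hy).1 (hball y hy).2).deriv
  have hmem : F x0 ∈ Metric.ball (F x0) ε := Metric.mem_ball_self hε
  have hmax : IsMaxOn (norm ∘ deriv fun z => f (e.symm z)) (Metric.ball (F x0) ε) (F x0) := by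
    intro y hy
    simp only [mem_setOf_eq, Function.comp_apply]
    rw [hderiv y hy, hderiv _ hmem, hρn _ (hball y hy).2, hρn _ (hball _ hmem).2]
  have hconst := Complex.eqOn_of_isPreconnected_of_isMaxOn_norm
    (convex_ball (F x0) ε).isPreconnected Metric.isOpen_ball hdiff2 hmem hmax
  have hcF : ContinuousAt F x0 := (hFd x0).hasFDerivAt.continuousAt
  filter_upwards [hcF.preimage_mem_nhds (Metric.isOpen_ball.mem_nhds hmem),
    e.open_source.mem_nhds hx0s] with x hx1 hx2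
  have h1 := hconst hx1
  simp only [Function.const_apply] at h1
  rw [hderiv _ hx1, hderiv _ hmem, hsymm0] at h1
  have h2 : e.symm (F x) = x := by rw [← heF]; exact e.left_inv hx2
  rw [h2] at h1
  exact h1

end Pool.Agent.MP_65e1c6_gt
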