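import Pool.Agent.MP_65e1c6_gt.Corr

open Set Filter Topology
open scoped ContDiff

namespace Pool.Agent.MP_65e1c6_gt

lemma per_int {P : (ℝ × ℝ) × ℝ → ℂ} (hper : ∀ x t, P (x, t + 2 * Real.pi) = P (x, t)) (n : ℤ)
    (y : (ℝ × ℝ) × ℝ) : P (y + (0, n * (2 * Real.pi))) = P y := by
  obtain ⟨x, t⟩ := y
  have hp : Function.Periodic (fun t => P (x, t)) (2 * Real.pi) := fun t => hper x t
  have := hp.int_mul n t
  simpa using this

lemma per_fderiv {P : (ℝ × ℝ) × ℝ → ℂ} (hper : ∀ x t, P (x, t + 2 * Real.pi) = P (x, t)) (n : ℤ)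
    (y : (ℝ × ℝ) × ℝ) : fderiv ℝ P (y + (0, n * (2 * Real.pi))) = fderiv ℝ P y := by
  rw [← fderiv_comp_add_right]
  congr 1
  funext z
  exact per_int hper n z

lemma exists_shift (t : ℝ) : ∃ n : ℤ, t + n * (2 * Real.pi) ∈ Icc (0 : ℝ) (2 * Real.pi) := by
  have hpos : (0 : ℝ) < 2 * Real.pi := by positivity
  obtain ⟨n, hn, -⟩ := existsUnique_add_zsmul_mem_Ico hpos t 0
  refine ⟨n, ?_⟩
  rw [zsmul_eq_mul] at hn
  exact ⟨hn.1, by have := hn.2; linarith⟩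

lemma per_bound {K : Set (ℝ × ℝ)} (hK : IsCompact K) {P : (ℝ × ℝ) × ℝ → ℂ}
    (hper : ∀ x t, P (x, t + 2 * Real.pi) = P (x, t))
    (hP : ∀ x ∈ K, ∀ t, ContDiffAt ℝ ∞ P (x, t)) :
    ∃ C : ℝ, 0 ≤ C ∧ ∀ x ∈ K, ∀ t, ‖P (x, t)‖ ≤ C ∧ ‖fderiv ℝ P (x, t)‖ ≤ C := by
  have hcomp : IsCompact (K ×ˢ Icc (0 : ℝ) (2 * Real.pi)) := hK.prod isCompact_Icc
  have hc1 : ContinuousOn P (K ×ˢ Icc (0 : ℝ) (2 * Real.pi)) := by
    rintro ⟨x, t⟩ ⟨hx, -⟩
    exact (hP x hx t).continuousAt.continuousWithinAt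
  have hc2 : ContinuousOn (fderiv ℝ P) (K ×ˢ Icc (0 : ℝ) (2 * Real.pi)) := by
    rintro ⟨x, t⟩ ⟨hx, -⟩
    exact ((hP x hx t).continuousAt_fderiv (by simp)).continuousWithinAt
  obtain ⟨C1, hC1⟩ := hcomp.exists_bound_of_continuousOn hc1
  obtain ⟨C2, hC2⟩ := hcomp.exists_bound_of_continuousOn hc2
  refine ⟨max (max C1 C2) 0, le_max_right _ _, ?_⟩
  intro x hx t
  obtain ⟨n, hn⟩ := exists_shift t
  have hmem : ((x, t + n * (2 * Real.pi)) : (ℝ × ℝ) × ℝ) ∈ K ×ˢ Icc (0 : ℝ) (2 * Real.pi) :=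
    ⟨hx, hn⟩
  have e : ((x, t + n * (2 * Real.pi)) : (ℝ × ℝ) × ℝ) = (x, t) + (0, n * (2 * Real.pi)) := by
    simp
  constructor
  · have := hC1 _ hmem
    rw [e, per_int hper] at this
    exact this.trans ((le_max_left _ _).trans (le_max_left _ _))
  · have := hC2 _ hmem
    rw [e, per_fderiv hper] at this
    exact this.trans ((le_max_right _ _).trans (le_max_left _ _))

/-- The fast variable map. -/
noncomputable def fast (N : ℝ) : (ℝ × ℝ) →L[ℝ] (ℝ × ℝ) × ℝ :=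
  (ContinuousLinearMap.id ℝ (ℝ × ℝ)).prod (N • ContinuousLinearMap.fst ℝ ℝ ℝ)

lemma fast_apply (N : ℝ) (x : ℝ × ℝ) : fast N x = (x, N * x.1) := by
  simp [fast]

lemma corrugate {K : Set (ℝ × ℝ)} (hK : IsCompact K) {P : (ℝ × ℝ) × ℝ → ℂ}
    (hper : ∀ x t, P (x, t + 2 * Real.pi) = P (x, t))
    (hP : ∀ x ∈ K, ∀ t, ContDiffAt ℝ ∞ P (x, t)) {f : ℝ × ℝ → ℂ}
    (hf : ∀ x ∈ K, ContDiffAt ℝ ∞ f x) {η : ℝ} (hη : 0 < η) :
    ∃ (N : ℝ) (g : ℝ × ℝ → ℂ), (∀ x ∈ K, ContDiffAt ℝ ∞ g x) ∧ ∀ x ∈ K,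
      ‖g x - f x‖ ≤ η ∧ ‖fderiv ℝ g x (0, 1) - fderiv ℝ f x (0, 1)‖ ≤ η ∧
      ‖fderiv ℝ g x (1, 0) - (fderiv ℝ f x (1, 0) + fderiv ℝ P (x, N * x.1) (0, 1))‖ ≤ η := by
  obtain ⟨C, hC0, hC⟩ := per_bound hK hper hP
  obtain ⟨N, hN1, hN⟩ : ∃ N : ℝ, 0 < N ∧ C / N ≤ η := by
    refine ⟨C / η + 1, by positivity, ?_⟩
    rw [div_le_iff₀ (by positivity)]
    have : η * (C / η + 1) = C + η := by field_simp
    rw [this]; linarith
  refine ⟨N, fun x => f x + N⁻¹ • P (fast N x), ?_, ?_⟩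
  · intro x hx
    have h1 : ContDiffAt ℝ ∞ P (fast N x) := by
      rw [fast_apply]; exact hP x hx _
    have h2 : ContDiffAt ℝ ∞ (fun x => P (fast N x)) x :=
      h1.comp x (fast N).contDiff.contDiffAt
    exact (hf x hx).add (h2.const_smul N⁻¹)
  · intro x hx
    have hfd : HasFDerivAt f (fderiv ℝ f x) x :=
      ((hf x hx).differentiableAt (by simp)).hasFDerivAt
    have hPd : HasFDerivAt P (fderiv ℝ P (fast N x)) (fast N x) := by
      have h1 : ContDiffAt ℝ ∞ P (fast N x) := by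
        rw [fast_apply]; exact hP x hx _
      exact (h1.differentiableAt (by simp)).hasFDerivAt
    have hgd : HasFDerivAt (fun x => f x + N⁻¹ • P (fast N x))
        (fderiv ℝ f x + N⁻¹ • (fderiv ℝ P (fast N x)).comp (fast N)) x :=
      hfd.add ((hPd.comp x (fast N).hasFDerivAt).const_smul N⁻¹)
    have hb := hC x hx (N * x.1)
    rw [← fast_apply] at hb
    have hNi : ‖(N⁻¹ : ℝ)‖ = N⁻¹ := by
      rw [Real.norm_eq_abs, abs_of_pos (by positivity)]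
    have hCN : N⁻¹ * C ≤ η := by
      rw [inv_mul_eq_div]; exact hN
    refine ⟨?_, ?_, ?_⟩
    · rw [add_sub_cancel_left, norm_smul, hNi]
      exact (mul_le_mul_of_nonneg_left hb.1 (by positivity)).trans hCN
    · rw [hgd.fderiv]
      have e1 : (fderiv ℝ f x + N⁻¹ • (fderiv ℝ P (fast N x)).comp (fast N)) (0, 1) -
          fderiv ℝ f x (0, 1) = N⁻¹ • fderiv ℝ P (fast N x) ((0, 1), 0) := by
        simp [fast]
      rw [e1, norm_smul, hNi]
      have h3 : ‖fderiv ℝ P (fast N x) ((0, 1), 0)‖ ≤ C := by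
        refine ((fderiv ℝ P (fast N x)).le_opNorm _).trans ?_
        have : ‖(((0, 1), 0) : (ℝ × ℝ) × ℝ)‖ = 1 := by simp [Prod.norm_def]
        rw [this, mul_one]; exact hb.2
      exact (mul_le_mul_of_nonneg_left h3 (by positivity)).trans hCN
    · rw [hgd.fderiv]
      have e1 : (fderiv ℝ f x + N⁻¹ • (fderiv ℝ P (fast N x)).comp (fast N)) (1, 0) -
          (fderiv ℝ f x (1, 0) + fderiv ℝ P (x, N * x.1) (0, 1)) =
          N⁻¹ • fderiv ℝ P (fast N x) ((1, 0), 0) := by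
        rw [← fast_apply]
        have e2 : fast N (1, 0) = ((1, 0), 0) + N • ((0, 1) : (ℝ × ℝ) × ℝ) := by
          rw [fast_apply]
          simp
        rw [add_apply, smul_apply,
          ContinuousLinearMap.comp_apply, e2, map_add, map_smul, smul_add, smul_smul,
          inv_mul_cancel₀ hN1.ne', one_smul]
        abel
      rw [e1, norm_smul, hNi]
      have h3 : ‖fderiv ℝ P (fast N x) ((1, 0), 0)‖ ≤ C := by
        refine ((fderiv ℝ P (fast N x)).le_opNorm _).trans ?_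
        have : ‖(((1, 0), 0) : (ℝ × ℝ) × ℝ)‖ = 1 := by simp [Prod.norm_def]
        rw [this, mul_one]; exact hb.2
      exact (mul_le_mul_of_nonneg_left h3 (by positivity)).trans hCN

end Pool.Agent.MP_65e1c6_gt
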