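import Pool.Agent.MP_65e1c6_gt.Step

open Set Filter Topology
open scoped ContDiff

namespace Pool.Agent.MP_65e1c6_gt

lemma contDiffAt_prof {b t : ℝ} (hb : |b| < 1) :
    ContDiffAt ℝ ∞ (fun q : ℝ × ℝ => prof q.1 q.2) (b, t) := by
  unfold prof
  have h1 : ContDiff ℝ ∞ (fun q : ℝ × ℝ => ((q.1 : ℝ) : ℂ)) :=
    Complex.ofRealCLM.contDiff.comp contDiff_fst
  have h2 : ContDiff ℝ ∞ (fun q : ℝ × ℝ => ((q.2 : ℝ) : ℂ)) :=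
    Complex.ofRealCLM.contDiff.comp contDiff_snd
  have h3 : ContDiff ℝ ∞ (fun q : ℝ × ℝ => Complex.exp ((q.2 : ℂ) * Complex.I)) :=
    (h2.mul contDiff_const).cexp
  have h4 : ContDiff ℝ ∞ (fun q : ℝ × ℝ => Complex.exp (-((q.2 : ℂ) * Complex.I))) :=
    (h2.mul contDiff_const).neg.cexp
  have h5 : ContDiff ℝ ∞ (fun q : ℝ × ℝ => 1 + (q.1 : ℂ) * Complex.exp (-((q.2 : ℂ) * Complex.I))) :=
    contDiff_const.add (h1.mul h4)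
  have h6 : ContDiffAt ℝ ∞ (fun q : ℝ × ℝ =>
      Complex.log (1 + (q.1 : ℂ) * Complex.exp (-((q.2 : ℂ) * Complex.I)))) (b, t) := by
    have hl : ContDiffAt ℝ ∞ Complex.log (1 + (b : ℂ) * Complex.exp (-((t : ℂ) * Complex.I))) :=
      (Complex.contDiffAt_log (slit_aux hb t)).restrict_scalars ℝ
    exact ContDiffAt.comp (b, t) (f := fun q : ℝ × ℝ =>
      1 + (q.1 : ℂ) * Complex.exp (-((q.2 : ℂ) * Complex.I))) hl h5.contDiffAt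
  exact ((contDiff_const.mul h1).mul h3).neg.contDiffAt.sub
    ((contDiffAt_const.mul (contDiffAt_const.sub (h1.contDiffAt.pow 2))).mul h6)

/-- First partial derivative. -/
noncomputable def pU (f : ℝ × ℝ → ℂ) (x : ℝ × ℝ) : ℂ := fderiv ℝ f x (1, 0)

/-- Second partial derivative. -/
noncomputable def pV (f : ℝ × ℝ → ℂ) (x : ℝ × ℝ) : ℂ := fderiv ℝ f x (0, 1)

noncomputable def bU (f : ℝ × ℝ → ℂ) (r : ℝ) (x : ℝ × ℝ) : ℝ := √(1 - ‖pU f x‖ / r)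

noncomputable def PU (f : ℝ × ℝ → ℂ) (r : ℝ) (y : (ℝ × ℝ) × ℝ) : ℂ :=
  ((r / ‖pU f y.1‖ : ℝ) • pU f y.1) * prof (bU f r y.1) y.2

lemma contDiffAt_pU {f : ℝ × ℝ → ℂ} {x : ℝ × ℝ} (hf : ContDiffAt ℝ ∞ f x) :
    ContDiffAt ℝ ∞ (pU f) x := by
  have h : ContDiffAt ℝ ∞ (fderiv ℝ f) x := hf.fderiv_right (by simp)
  exact h.clm_apply contDiffAt_const

lemma contDiffAt_pV {f : ℝ × ℝ → ℂ} {x : ℝ × ℝ} (hf : ContDiffAt ℝ ∞ f x) :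
    ContDiffAt ℝ ∞ (pV f) x := by
  have h : ContDiffAt ℝ ∞ (fderiv ℝ f) x := hf.fderiv_right (by simp)
  exact h.clm_apply contDiffAt_const

lemma bU_facts {f : ℝ × ℝ → ℂ} {r : ℝ} {x : ℝ × ℝ} (hr : 0 < r) (h1 : 3 / 4 * r ≤ ‖pU f x‖)
    (h2 : ‖pU f x‖ < r) : 0 < bU f r x ∧ bU f r x ≤ 1 / 2 ∧ (bU f r x) ^ 2 = 1 - ‖pU f x‖ / r := by
  have h3 : 0 < 1 - ‖pU f x‖ / r := by
    rw [sub_pos, div_lt_one hr]; exact h2
  refine ⟨Real.sqrt_pos.mpr h3, ?_, Real.sq_sqrt h3.le⟩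
  unfold bU
  rw [Real.sqrt_le_left (by norm_num)]
  have : 3 / 4 ≤ ‖pU f x‖ / r := by rw [le_div_iff₀ hr]; exact h1
  norm_num
  linarith

lemma contDiffAt_PU {f : ℝ × ℝ → ℂ} {r : ℝ} {x : ℝ × ℝ} (hf : ContDiffAt ℝ ∞ f x) (hr : 0 < r)
    (h1 : 3 / 4 * r ≤ ‖pU f x‖) (h2 : ‖pU f x‖ < r) (t : ℝ) :
    ContDiffAt ℝ ∞ (PU f r) (x, t) := by
  have hp := contDiffAt_pU hf
  have hne : pU f x ≠ 0 := by
    rw [← norm_pos_iff]; exact lt_of_lt_of_le (by positivity) h1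
  have hn : ContDiffAt ℝ ∞ (fun x => ‖pU f x‖) x := hp.norm ℝ hne
  have hE : ContDiffAt ℝ ∞ (fun x => (r / ‖pU f x‖ : ℝ) • pU f x) x :=
    (contDiffAt_const.div hn (norm_ne_zero_iff.mpr hne)).smul hp
  have h3 : 0 < 1 - ‖pU f x‖ / r := by
    rw [sub_pos, div_lt_one hr]; exact h2
  have hb : ContDiffAt ℝ ∞ (bU f r) x :=
    (contDiffAt_const.sub (hn.div_const r)).sqrt h3.ne'
  have hbb := bU_facts hr h1 h2
  have hprof : ContDiffAt ℝ ∞ (fun q : ℝ × ℝ => prof q.1 q.2) (bU f r x, t) :=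
    contDiffAt_prof (by rw [abs_of_pos hbb.1]; linarith [hbb.2.1])
  have hfst : ContDiffAt ℝ ∞ (Prod.fst : (ℝ × ℝ) × ℝ → ℝ × ℝ) (x, t) := contDiffAt_fst
  have hsnd : ContDiffAt ℝ ∞ (Prod.snd : (ℝ × ℝ) × ℝ → ℝ) (x, t) := contDiffAt_snd
  have hE' : ContDiffAt ℝ ∞ (fun y : (ℝ × ℝ) × ℝ => (r / ‖pU f y.1‖ : ℝ) • pU f y.1) (x, t) :=
    ContDiffAt.comp (x, t) (f := (Prod.fst : (ℝ × ℝ) × ℝ → ℝ × ℝ)) hE hfst
  have hb' : ContDiffAt ℝ ∞ (fun y : (ℝ × ℝ) × ℝ => bU f r y.1) (x, t) :=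
    ContDiffAt.comp (x, t) (f := (Prod.fst : (ℝ × ℝ) × ℝ → ℝ × ℝ)) hb hfst
  have hq : ContDiffAt ℝ ∞ (fun y : (ℝ × ℝ) × ℝ => (bU f r y.1, y.2)) (x, t) :=
    hb'.prodMk hsnd
  have hprof' : ContDiffAt ℝ ∞ (fun y : (ℝ × ℝ) × ℝ => prof (bU f r y.1) y.2) (x, t) :=
    ContDiffAt.comp (x, t) (f := fun y : (ℝ × ℝ) × ℝ => (bU f r y.1, y.2)) hprof hq
  exact hE'.mul hprof'

lemma fderiv_PU {f : ℝ × ℝ → ℂ} {r : ℝ} {x : ℝ × ℝ} (hf : ContDiffAt ℝ ∞ f x) (hr : 0 < r)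
    (h1 : 3 / 4 * r ≤ ‖pU f x‖) (h2 : ‖pU f x‖ < r) (t : ℝ) :
    fderiv ℝ (PU f r) (x, t) (0, 1) =
      ((r / ‖pU f x‖ : ℝ) • pU f x) * (zf (bU f r x) t - (1 - (bU f r x : ℂ) ^ 2)) := by
  have hbb := bU_facts hr h1 h2
  have hd : HasFDerivAt (PU f r) (fderiv ℝ (PU f r) (x, t)) (x, t) :=
    ((contDiffAt_PU hf hr h1 h2 t).differentiableAt (by simp)).hasFDerivAt
  have hl : HasDerivAt (fun s : ℝ => ((x, s) : (ℝ × ℝ) × ℝ)) (0, 1) t :=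
    (hasDerivAt_const t x).prodMk (hasDerivAt_id t)
  have hc := hd.comp_hasDerivAt t hl
  have hc2 : HasDerivAt (fun s => ((r / ‖pU f x‖ : ℝ) • pU f x) * prof (bU f r x) s)
      (((r / ‖pU f x‖ : ℝ) • pU f x) * (zf (bU f r x) t - (1 - (bU f r x : ℂ) ^ 2))) t :=
    (hasDerivAt_prof (by rw [abs_of_pos hbb.1]; linarith [hbb.2.1]) t).const_mul _
  exact hc.unique hc2

lemma PU_key {f : ℝ × ℝ → ℂ} {r : ℝ} {x : ℝ × ℝ} (hf : ContDiffAt ℝ ∞ f x) (hr : 0 < r)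
    (h1 : 3 / 4 * r ≤ ‖pU f x‖) (h2 : ‖pU f x‖ < r) (t : ℝ) :
    ‖pU f x + fderiv ℝ (PU f r) (x, t) (0, 1)‖ = r ∧
    ‖fderiv ℝ (PU f r) (x, t) (0, 1)‖ ≤ 5 * r * bU f r x := by
  obtain ⟨hb0, hb1, hb2⟩ := bU_facts hr h1 h2
  have hpos : 0 < ‖pU f x‖ := lt_of_lt_of_le (by positivity) h1
  rw [fderiv_PU hf hr h1 h2 t]
  have hE : ‖(r / ‖pU f x‖ : ℝ) • pU f x‖ = r := by
    rw [norm_smul, norm_div, norm_norm, Real.norm_eq_abs, abs_of_pos hr]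
    field_simp
  have hEb : ((r / ‖pU f x‖ : ℝ) • pU f x) * (1 - (bU f r x : ℂ) ^ 2) = pU f x := by
    have : (1 - (bU f r x : ℂ) ^ 2) = ((‖pU f x‖ / r : ℝ) : ℂ) := by
      rw [← Complex.ofReal_pow, hb2]
      push_cast
      ring
    rw [this, Complex.real_smul]
    push_cast
    have hr' : (r : ℂ) ≠ 0 := by exact_mod_cast hr.ne'
    have hp' : ((‖pU f x‖ : ℝ) : ℂ) ≠ 0 := by exact_mod_cast hpos.ne'
    field_simp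
  have habs : |bU f r x| < 1 := by rw [abs_of_pos hb0]; linarith
  constructor
  · have : pU f x + ((r / ‖pU f x‖ : ℝ) • pU f x) * (zf (bU f r x) t - (1 - (bU f r x : ℂ) ^ 2)) =
        ((r / ‖pU f x‖ : ℝ) • pU f x) * zf (bU f r x) t := by
      rw [mul_sub, hEb]; ring
    rw [this, norm_mul, hE, norm_zf habs, mul_one]
  · rw [norm_mul, hE]
    have h4 : ‖zf (bU f r x) t - (1 - (bU f r x : ℂ) ^ 2)‖ ≤ 5 * bU f r x := by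
      have e : zf (bU f r x) t - (1 - (bU f r x : ℂ) ^ 2) =
          (zf (bU f r x) t - 1) + (bU f r x : ℂ) ^ 2 := by ring
      rw [e]
      refine (norm_add_le _ _).trans ?_
      have h5 := norm_zf_sub_one hb0.le hb1 t
      have h6 : ‖(bU f r x : ℂ) ^ 2‖ = (bU f r x) ^ 2 := by
        rw [norm_pow, Complex.norm_real, Real.norm_eq_abs, abs_of_pos hb0]
      rw [h6]
      nlinarith
    calc r * ‖zf (bU f r x) t - (1 - (bU f r x : ℂ) ^ 2)‖ ≤ r * (5 * bU f r x) :=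
          mul_le_mul_of_nonneg_left h4 hr.le
      _ = 5 * r * bU f r x := by ring

/-- The corrugation step in the first variable. -/
theorem u_step {K : Set (ℝ × ℝ)} (hK : IsCompact K) {f : ℝ × ℝ → ℂ}
    (hf : ∀ x ∈ K, ContDiffAt ℝ ∞ f x) {r : ℝ} (hr : 0 < r)
    (h1 : ∀ x ∈ K, 3 / 4 * r ≤ ‖pU f x‖) (h2 : ∀ x ∈ K, ‖pU f x‖ < r) {η : ℝ} (hη : 0 < η) :
    ∃ g : ℝ × ℝ → ℂ, (∀ x ∈ K, ContDiffAt ℝ ∞ g x) ∧ ∀ x ∈ K,
      ‖g x - f x‖ ≤ η ∧ ‖pV g x - pV f x‖ ≤ η ∧ |‖pU g x‖ - r| ≤ η ∧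
      ‖pU g x - pU f x‖ ≤ 5 * r * √(1 - ‖pU f x‖ / r) + η := by
  obtain ⟨N, g, hg, hgb⟩ := corrugate (P := PU f r) hK
    (fun x t => by simp only [PU]; rw [prof_periodic])
    (fun x hx t => contDiffAt_PU (hf x hx) hr (h1 x hx) (h2 x hx) t) hf hη
  refine ⟨g, hg, fun x hx => ?_⟩
  obtain ⟨hg1, hg2, hg3⟩ := hgb x hx
  obtain ⟨k1, k2⟩ := PU_key (hf x hx) hr (h1 x hx) (h2 x hx) (N * x.1)
  refine ⟨hg1, hg2, ?_, ?_⟩
  · have h3 : ‖pU g x - (pU f x + fderiv ℝ (PU f r) (x, N * x.1) (0, 1))‖ ≤ η := hg3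
    have h4 := abs_norm_sub_norm_le (pU g x) (pU f x + fderiv ℝ (PU f r) (x, N * x.1) (0, 1))
    rw [k1] at h4
    exact h4.trans h3
  · have e : pU g x - pU f x = (pU g x - (pU f x + fderiv ℝ (PU f r) (x, N * x.1) (0, 1))) +
        fderiv ℝ (PU f r) (x, N * x.1) (0, 1) := by ring
    rw [e]
    refine (norm_add_le _ _).trans ?_
    have h3 : ‖pU g x - (pU f x + fderiv ℝ (PU f r) (x, N * x.1) (0, 1))‖ ≤ η := hg3
    have h4 : bU f r x = √(1 - ‖pU f x‖ / r) := rfl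
    rw [← h4]
    linarith

end Pool.Agent.MP_65e1c6_gt
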